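import Pool.Agent.Lib.MP_0abd54_ag.Lines

/-!
# Two rational lines in the `l`-adic spaces: definitions

`W` stands for a line (over a number field `F`) of absolute Hodge classes on `A`, `X` for the line of
Lefschetz classes on the reduction `A_0` which lie in the `l`-adic space `M` spanned by the
specialisations of the elements of `W`.
-/

set_option autoImplicit false

namespace Pool.Agent.Lib.MP_0abd54_ag

/-- the prime numbers different from `p` -/
abbrev OtherPrime (p : ℕ) : Type := PrimeNe p

/-- A realisation over the field `L` of a pair of `F`-vector spaces `W`, `X` with forms `bW`, `bX`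
with values in `ℚ`: an `L`-vector space `M` on which `F` acts, `F`-linear maps `j : W → M` and
`i : X → M`, and a symmetric `L`-bilinear form on `M` which induces `bW` and `bX`; `M` is spanned
over `L` by `j W`. -/
structure Realization (F W X : Type) [Field F] [AddCommGroup W] [Module F W] [AddCommGroup X]
    [Module F X] (bW : W → W → ℚ) (bX : X → X → ℚ) (L : Type) [Field L] where
  /-- the space -/
  M : Type
  [grp : AddCommGroup M]
  [modL : Module L M]
  [modF : Module F M]
  [comm : SMulCommClass L F M]
  /-- the first rational structure -/
  j : W →ₗ[F] M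
  /-- the second rational structure -/
  i : X →ₗ[F] M
  /-- the form -/
  B : LinearMap.BilinForm L M
  symm : ∀ m m', B m m' = B m' m
  span_j : Submodule.span L (Set.range j) = ⊤
  B_j : ∀ w w', B (j w) (j w') = (bW w w' : L)
  B_i : ∀ x x', B (i x) (i x') = (bX x x' : L)

attribute [instance] Realization.grp Realization.modL Realization.modF Realization.comm

instance Realization.comm' {F W X : Type} [Field F] [AddCommGroup W] [Module F W]
    [AddCommGroup X] [Module F X] {bW : W → W → ℚ} {bX : X → X → ℚ} {L : Type} [Field L]
    (R : Realization F W X bW bX L) : SMulCommClass F L R.M := SMulCommClass.symm L F R.M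

/-- Semilinear maps on a realisation: for every automorphism `g` of `F` an injective `L`-linear and
`g`-semilinear map of `M` which induces `φW g` on `W` and `φX g` on `X`. -/
structure Semilinear {F W X : Type} [Field F] [Algebra ℚ F] [AddCommGroup W] [Module F W]
    [AddCommGroup X] [Module F X] {bW : W → W → ℚ} {bX : X → X → ℚ} {L : Type} [Field L]
    (φW : (F ≃ₐ[ℚ] F) → W → W) (φX : (F ≃ₐ[ℚ] F) → X → X) (R : Realization F W X bW bX L) where
  /-- the maps -/
  φ : (F ≃ₐ[ℚ] F) → R.M →ₗ[L] R.M
  inj : ∀ g, Function.Injective (φ g)
  semi : ∀ g (a : F) (m : R.M), φ g (a • m) = g a • φ g m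
  φ_j : ∀ g w, φ g (R.j w) = R.j (φW g w)
  φ_i : ∀ g x, φ g (R.i x) = R.i (φX g x)

end Pool.Agent.Lib.MP_0abd54_ag
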