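import Mathlib

/-!
# Two rational lines in the `l`-adic spaces: definitions

`w` stands for a generator of a line (over a number field `F`) of absolute Hodge classes on `A`, `x`
for a generator of the line of Lefschetz classes on the reduction `A_0` which lie in the `l`-adic
space `M` spanned by the specialisations of the elements `a • w`.
-/

set_option autoImplicit false

namespace Pool.Agent.Lib.MP_0abd54_ag

/-- the prime numbers different from `p` -/
abbrev PrimeNe (p : ℕ) : Type := {l : ℕ // l.Prime ∧ l ≠ p}

instance (p : ℕ) (l : PrimeNe p) : Fact l.1.Prime := ⟨l.2.1⟩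

/-- A symmetric `L`-bilinear form on `M`. -/
structure SymForm (L M : Type) [Field L] [AddCommGroup M] [Module L M] where
  /-- the form -/
  B : M → M → L
  symm : ∀ m n, B m n = B n m
  add_left : ∀ m m' n, B (m + m') n = B m n + B m' n
  smul_left : ∀ (r : L) (m n : M), B (r • m) n = r * B m n

/-- Two lines in an `L`-vector space `M` on which the field `F` acts (commuting with `L`), with the
generators `w` and `x`, and a symmetric bilinear form on `M` with `B (a w) (b w) = bW a b`,
`B (a x) (b x) = bX a b` for `a`, `b` in `F`, rational numbers given beforehand. The multiples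
`a • w` span `M` over `L`. -/
structure Lines (F : Type) [Field F] (bW bX : F → F → ℚ) (L : Type) [Field L] where
  /-- the space -/
  M : Type
  [grp : AddCommGroup M]
  [modL : Module L M]
  [modF : Module F M]
  /-- the form -/
  form : SymForm L M
  /-- generator of the first line -/
  w : M
  /-- generator of the second line -/
  x : M
  comm : ∀ (r : L) (a : F) (m : M), r • a • m = a • r • m
  span_w : ∀ m : M, m ∈ Submodule.span L (Set.range fun a : F => a • w)
  B_w : ∀ a b : F, form.B (a • w) (b • w) = (bW a b : L)
  B_x : ∀ a b : F, form.B (a • x) (b • x) = (bX a b : L)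

attribute [instance] Lines.grp Lines.modL Lines.modF

/-- For every automorphism `g` of `F` an injective `L`-linear and `g`-semilinear map `φ g` of `M`
with `φ g w = α g • w` and `φ g x = β g • x`. -/
structure SemilinearMaps {F : Type} [Field F] [Algebra ℚ F] {bW bX : F → F → ℚ} {L : Type}
    [Field L] (α β : (F ≃ₐ[ℚ] F) → F) (R : Lines F bW bX L) where
  /-- the maps -/
  φ : (F ≃ₐ[ℚ] F) → R.M → R.M
  inj : ∀ g, Function.Injective (φ g)
  add : ∀ g m n, φ g (m + n) = φ g m + φ g n
  lin : ∀ g (r : L) m, φ g (r • m) = r • φ g m
  semi : ∀ g (a : F) m, φ g (a • m) = g a • φ g m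
  φ_w : ∀ g, φ g R.w = α g • R.w
  φ_x : ∀ g, φ g R.x = β g • R.x

end Pool.Agent.Lib.MP_0abd54_ag
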