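import Mathlib

/-!
# A rational number which is a square in `ℚ_[l]` for all primes `l ≠ p` is a square
-/

set_option autoImplicit false

namespace Pool.Agent.Lib.MP_0abd54_ag.Squares

open Finset

/-- a squarefree `a₀ > 1` is not a square modulo some number `n` with `n % 4 = 1` -/
theorem exists_jac {a₀ : ℕ} (hs : Squarefree a₀) (h1 : 1 < a₀) :
    ∃ n : ℕ, n % 4 = 1 ∧ jacobiSym (a₀ : ℤ) n = -1 := by
  by_cases hp : ∃ p : ℕ, p.Prime ∧ p ≠ 2 ∧ p ∣ a₀
  · obtain ⟨p, hp, hp2, β, rfl⟩ := hp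
    have : Fact p.Prime := ⟨hp⟩
    have hβ0 : 0 < β := by
      rcases Nat.eq_zero_or_pos β with h | h
      · subst h
        simp at h1
      · exact h
    have hcop : Nat.Coprime p β := by
      rcases (Nat.coprime_or_dvd_of_prime hp β) with h | h
      · exact h
      · exfalso
        obtain ⟨γ, rfl⟩ := h
        have := hs p ⟨γ, by ring⟩
        exact hp.one_lt.ne' (Nat.isUnit_iff.1 this)
    have hc2 : Nat.Coprime p (4 * β) := by
      refine Nat.Coprime.mul_right ?_ hcop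
      have : Nat.Coprime p 2 := (Nat.coprime_primes hp Nat.prime_two).2 hp2
      exact this.pow_right 2
    obtain ⟨u, hu⟩ := FiniteField.exists_nonsquare (F := ZMod p) (by
      rw [ZMod.ringChar_zmod_n]
      exact hp2)
    obtain ⟨n, hn1, hn2⟩ := Nat.chineseRemainder hc2 u.val 1
    have hmod : n % (4 * β) = 1 % (4 * β) := hn2
    have hn4 : n % 4 = 1 := by
      have h5 : n ≡ 1 [MOD 4] := Nat.ModEq.of_mul_right β hn2
      exact h5
    have hodd : n % 2 = 1 := by omega
    have hO : Odd n := Nat.odd_iff.2 hodd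
    refine ⟨n, hn4, ?_⟩
    have e1 : jacobiSym (β : ℤ) n = 1 := by
      rw [jacobiSym.mod_right _ hO, Int.natAbs_natCast, hmod, Nat.mod_eq_of_lt (by omega),
        jacobiSym.one_right]
    have e2 : jacobiSym (p : ℤ) n = -1 := by
      rw [← jacobiSym.quadratic_reciprocity_one_mod_four hn4 (hp.odd_of_ne_two hp2),
        ← jacobiSym.legendreSym.to_jacobiSym, legendreSym.eq_neg_one_iff]
      have h6 : ((n : ℤ) : ZMod p) = u := by
        have h7 : ((n : ℕ) : ZMod p) = ((u.val : ℕ) : ZMod p) :=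
          (ZMod.natCast_eq_natCast_iff _ _ _).2 hn1
        rw [Int.cast_natCast, h7, ZMod.natCast_val, ZMod.cast_id', id]
      rw [h6]
      exact hu
    push_cast
    rw [jacobiSym.mul_left, e1, e2]
    norm_num
  · push Not at hp
    have h2 : a₀ = 2 := by
      have h3 : a₀.primeFactors = {2} := by
        ext q
        rw [Nat.mem_primeFactors, mem_singleton]
        constructor
        · rintro ⟨hq, hd, -⟩
          by_contra h
          exact hp q hq h hd
        · rintro rfl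
          obtain ⟨q, hq, hd⟩ := Nat.exists_prime_and_dvd h1.ne'
          by_cases h : q = 2
          · subst h
            exact ⟨hq, hd, by omega⟩
          · exact absurd hd (hp q hq h)
      rw [← Nat.prod_primeFactors_of_squarefree hs, h3, prod_singleton]
    subst h2
    refine ⟨5, by norm_num, ?_⟩
    norm_num

/-- an integer `±a₀ ≠ 1`, `a₀ ≥ 1` squarefree, is not a square modulo some odd number -/
theorem exists_jac' {a₀ : ℕ} (hs : Squarefree a₀) (e : ℤ) (he : e = 1 ∨ e = -1)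
    (h1 : e * a₀ ≠ 1) : ∃ n : ℕ, n % 2 = 1 ∧ jacobiSym (e * a₀) n = -1 := by
  rcases Nat.lt_or_ge 1 a₀ with h | h
  · obtain ⟨n, h4, h5⟩ := exists_jac hs h
    refine ⟨n, by omega, ?_⟩
    rw [jacobiSym.mul_left, h5]
    rcases he with rfl | rfl
    · rw [jacobiSym.one_left]; norm_num
    · rw [jacobiSym.at_neg_one (Nat.odd_iff.2 (by omega)), ZMod.χ₄_nat_one_mod_four h4]
      norm_num
  · have ha : a₀ = 1 := by
      have := hs.ne_zero
      omega
    subst ha
    rcases he with rfl | rfl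
    · exact absurd (by norm_num) h1
    · refine ⟨3, by norm_num, ?_⟩
      norm_num

/-- a nonzero integer which is a square modulo all large primes is a square -/
theorem isSquare_of_mod (k : ℤ) (hk : k ≠ 0) (P : ℕ)
    (h : ∀ l : ℕ, l.Prime → P < l → IsSquare ((k : ℤ) : ZMod l)) : IsSquare k := by
  obtain ⟨a₀, m, hkm, hs⟩ : ∃ a₀ m : ℕ, m ^ 2 * a₀ = k.natAbs ∧ Squarefree a₀ := by
    obtain ⟨a, b, h1, h2⟩ := Nat.sq_mul_squarefree k.natAbs
    exact ⟨a, b, h1, h2⟩
  have hm : m ≠ 0 := by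
    rintro rfl
    have : k.natAbs = 0 := by rw [← hkm]; simp
    exact hk (Int.natAbs_eq_zero.1 this)
  obtain ⟨e, he, hke⟩ : ∃ e : ℤ, (e = 1 ∨ e = -1) ∧ k = (m : ℤ) ^ 2 * (e * a₀) := by
    rcases Int.natAbs_eq k with h1 | h1
    · refine ⟨1, Or.inl rfl, ?_⟩
      rw [h1, ← hkm]; push_cast; ring
    · refine ⟨-1, Or.inr rfl, ?_⟩
      rw [h1, ← hkm]; push_cast; ring
  by_cases h1 : e * (a₀ : ℤ) = 1
  · rw [hke, h1]
    exact ⟨m, by ring⟩
  · exfalso
    obtain ⟨n, hn, hj⟩ := exists_jac' hs e he h1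
    have ha0 : 0 < a₀ := Nat.pos_of_ne_zero hs.ne_zero
    have hNZ : NeZero (4 * a₀) := ⟨by omega⟩
    have hcop : Nat.Coprime n (4 * a₀) := by
      have hn0 : NeZero n := ⟨by omega⟩
      have h2 : (e * (a₀ : ℤ)).gcd n = 1 := by
        by_contra hcon
        rw [jacobiSym.eq_zero_iff_not_coprime.2 hcon] at hj
        norm_num at hj
      have h3 : (e * (a₀ : ℤ)).natAbs = a₀ := by
        rcases he with rfl | rfl <;> simp
      have h4 : Nat.Coprime a₀ n := by
        rw [Int.gcd, h3, Int.natAbs_natCast] at h2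
        exact h2
      refine Nat.Coprime.mul_right ?_ h4.symm
      have : Nat.Coprime n 2 := Nat.coprime_two_right.2 (Nat.odd_iff.2 hn)
      exact this.pow_right 2
    obtain ⟨l, hl, hlp, hln⟩ := Nat.forall_exists_prime_gt_and_eq_mod
      (q := 4 * a₀) (a := (n : ZMod (4 * a₀))) ((ZMod.isUnit_iff_coprime n (4 * a₀)).2 hcop)
      (P + m + 4 * a₀)
    have : Fact l.Prime := ⟨hlp⟩
    have hl2 : l ≠ 2 := by omega
    have hmod : l % (4 * a₀) = n % (4 * a₀) := (ZMod.natCast_eq_natCast_iff _ _ _).1 hln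
    have hjl : jacobiSym (e * a₀) l = -1 := by
      have h3 : (e * (a₀ : ℤ)).natAbs = a₀ := by
        rcases he with rfl | rfl <;> simp
      rw [jacobiSym.mod_right _ (hlp.odd_of_ne_two hl2), h3, hmod]
      rw [jacobiSym.mod_right _ (Nat.odd_iff.2 hn), h3] at hj
      exact hj
    rw [← jacobiSym.legendreSym.to_jacobiSym, legendreSym.eq_neg_one_iff] at hjl
    apply hjl
    have h5 := h l hlp (by omega)
    rw [hke] at h5
    push_cast at h5
    have hml : (m : ZMod l) ≠ 0 := by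
      intro h6
      rw [ZMod.natCast_eq_zero_iff] at h6
      have := Nat.le_of_dvd (Nat.pos_of_ne_zero hm) h6
      omega
    obtain ⟨r, hr⟩ := h5
    refine ⟨r / m, ?_⟩
    push_cast
    field_simp
    rw [← pow_two] at hr
    rw [← hr]
    ring

/-- an integer prime to `l` which is a square in `ℚ_[l]` is a square modulo `l` -/
theorem mod_of_padic (l : ℕ) [Fact l.Prime] (k : ℤ) (h : IsSquare (k : ℚ_[l])) :
    IsSquare ((k : ℤ) : ZMod l) := by
  obtain ⟨r, hr⟩ := h
  have h1 : ‖r‖ ≤ 1 := by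
    have h2 : ‖(k : ℚ_[l])‖ ≤ 1 := Padic.norm_int_le_one k
    rw [hr, norm_mul] at h2
    nlinarith [norm_nonneg r]
  obtain ⟨z, hz⟩ : ∃ z : ℤ_[l], (z : ℚ_[l]) = r := ⟨⟨r, h1⟩, rfl⟩
  have h3 : ((k : ℤ_[l])) = z * z := by
    apply Subtype.ext
    rw [PadicInt.coe_intCast, PadicInt.coe_mul, hz]
    exact hr
  have h4 := congrArg (PadicInt.toZMod (p := l)) h3
  rw [map_intCast, map_mul] at h4
  exact ⟨_, h4⟩

/-- a rational number which is a square in `ℚ_[l]` for all primes `l ≠ p` is a square -/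
theorem isSquare_of_padic (n : ℚ) (hn : n ≠ 0) (p : ℕ)
    (h : ∀ (l : ℕ) [Fact l.Prime], l ≠ p → IsSquare ((n : ℚ) : ℚ_[l])) : IsSquare n := by
  have hd : (n.den : ℚ) ≠ 0 := by exact_mod_cast n.den_ne_zero
  have hnum : n.num ≠ 0 := Rat.num_ne_zero.2 hn
  have e1 : ((n.num * n.den : ℤ) : ℚ) = n * (n.den : ℚ) ^ 2 := by
    push_cast
    have := Rat.mul_den_eq_num n
    rw [← this]
    ring
  have h1 : IsSquare (n.num * n.den : ℤ) := by
    refine isSquare_of_mod _ (mul_ne_zero hnum (by exact_mod_cast n.den_ne_zero)) p ?_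
    intro l hl hpl
    have : Fact l.Prime := ⟨hl⟩
    apply mod_of_padic
    obtain ⟨r, hr⟩ := h l (by omega)
    refine ⟨r * n.den, ?_⟩
    have e2 : (((n.num * n.den : ℤ) : ℚ) : ℚ_[l]) = ((n * (n.den : ℚ) ^ 2 : ℚ) : ℚ_[l]) := by
      rw [e1]
    push_cast at e2 ⊢
    rw [e2, hr]
    ring
  obtain ⟨s, hs⟩ := h1
  refine ⟨s / n.den, ?_⟩
  have e3 : n * (n.den : ℚ) ^ 2 = (s : ℚ) * s := by
    rw [← e1, hs]
    push_cast
    ring
  field_simp
  linarith [e3]

end Pool.Agent.Lib.MP_0abd54_ag.Squares
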