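import Pool.Agent.Lib.MP_0abd54_ag.Defs
import Pool.Agent.Lib.MP_0abd54_ag.Squares

/-!
# The two rational lines agree up to sign
-/

set_option autoImplicit false

namespace Pool.Agent.Lib.MP_0abd54_ag

open Finset

section basic

variable {F W X : Type} [Field F] [AddCommGroup W] [Module F W] [AddCommGroup X] [Module F X]
  {bW : W → W → ℚ} {bX : X → X → ℚ} {L : Type} [Field L]

/-- the two actions of the rational numbers agree -/
lemma rat_smul [CharZero F] [CharZero L] {M : Type} [AddCommGroup M] [Module L M] [Module F M]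
    (q : ℚ) (m : M) : (q : F) • m = (q : L) • m :=
  map_ratCast_smul (AddMonoidHom.id M) F L q m

lemma smul_inj {M : Type} [AddCommGroup M] [Module F M] {a b : F} {y : M} (hy : y ≠ 0)
    (h : a • y = b • y) : a = b := by
  by_contra hab
  have h1 : (a - b) • y = 0 := by rw [sub_smul, h, sub_self]
  rcases smul_eq_zero.1 h1 with h2 | h2
  · exact hab (sub_eq_zero.1 h2)
  · exact hy h2

end basic

section main

variable {F W X : Type} [Field F] [NumberField F] [AddCommGroup W] [Module F W] [AddCommGroup X]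
  [Module F X] {bW : W → W → ℚ} {bX : X → X → ℚ} {L : Type} [Field L] [CharZero L]
  {φW : (F ≃ₐ[ℚ] F) → W → W} {φX : (F ≃ₐ[ℚ] F) → X → X}

variable (R : Realization F W X bW bX L) (S : Semilinear φW φX R)

omit [NumberField F] [CharZero L] in
/-- an element of `M` is a combination of the `a • j w₀` -/
lemma ind {w₀ : W} (hw : ∀ w : W, ∃ a : F, a • w₀ = w) {P : R.M → Prop}
    (h1 : ∀ a : F, P (a • R.j w₀)) (h2 : ∀ m m', P m → P m' → P (m + m'))
    (h3 : ∀ (r : L) m, P m → P (r • m)) (m : R.M) : P m := by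
  have hm : m ∈ Submodule.span L (Set.range R.j) := by rw [R.span_j]; trivial
  induction hm using Submodule.span_induction with
  | mem x hx =>
    obtain ⟨w, rfl⟩ := hx
    obtain ⟨a, rfl⟩ := hw w
    rw [map_smul]
    exact h1 a
  | zero => simpa using h1 0
  | add x y _ _ hx hy => exact h2 _ _ hx hy
  | smul r x _ hx => exact h3 _ _ hx

/-- the maps `m ↦ α_g⁻¹ φ_g m` are determined by their values at `a • j w₀` -/
lemma psi_mul {w₀ : W} (hw : ∀ w : W, ∃ a : F, a • w₀ = w) {α : (F ≃ₐ[ℚ] F) → F}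
    (hα : ∀ g, α g • w₀ = φW g w₀) (hα0 : ∀ g, α g ≠ 0) (g h : F ≃ₐ[ℚ] F) (m : R.M) :
    (α g)⁻¹ • S.φ g ((α h)⁻¹ • S.φ h m) = (α (g * h))⁻¹ • S.φ (g * h) m := by
  have key : ∀ (g : F ≃ₐ[ℚ] F) (a : F), (α g)⁻¹ • S.φ g (a • R.j w₀) = g a • R.j w₀ := by
    intro g a
    rw [S.semi, S.φ_j, ← hα, map_smul, smul_smul, smul_smul]
    congr 1
    field_simp [hα0 g]
  refine ind R hw (P := fun m => (α g)⁻¹ • S.φ g ((α h)⁻¹ • S.φ h m) =
    (α (g * h))⁻¹ • S.φ (g * h) m) ?_ ?_ ?_ m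
  · intro a
    rw [key, key, key]
    rfl
  · intro m m' hm hm'
    rw [map_add, smul_add, map_add, smul_add, hm, hm', map_add, smul_add]
  · intro r m hm
    rw [map_smul (S.φ h), smul_comm (α h)⁻¹ r, map_smul (S.φ g), smul_comm (α g)⁻¹ r, hm,
      map_smul (S.φ (g * h)), smul_comm _ r]

/-- the fixed vectors of the normalised semilinear maps -/
lemma fixed [IsGalois ℚ F] {w₀ : W} (hw : ∀ w : W, ∃ a : F, a • w₀ = w) {α : (F ≃ₐ[ℚ] F) → F}
    (hα : ∀ g, α g • w₀ = φW g w₀) (hα0 : ∀ g, α g ≠ 0) (y : R.M)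
    (hy : ∀ g, (α g)⁻¹ • S.φ g y = y) : ∃ r : L, y = r • R.j w₀ := by
  have key : ∀ (g : F ≃ₐ[ℚ] F) (a : F), (α g)⁻¹ • S.φ g (a • R.j w₀) = g a • R.j w₀ := by
    intro g a
    rw [S.semi, S.φ_j, ← hα, map_smul, smul_smul, smul_smul]
    congr 1
    field_simp [hα0 g]
  have h1 : ∃ r : L, ∑ g : F ≃ₐ[ℚ] F, (α g)⁻¹ • S.φ g y = r • R.j w₀ := by
    refine ind R hw (P := fun m => ∃ r : L, ∑ g : F ≃ₐ[ℚ] F, (α g)⁻¹ • S.φ g m = r • R.j w₀)
      ?_ ?_ ?_ y
    · intro a
      refine ⟨(Algebra.trace ℚ F a : L), ?_⟩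
      rw [← rat_smul (F := F) (L := L)]
      have h2 : ((Algebra.trace ℚ F a : ℚ) : F) = ∑ g : F ≃ₐ[ℚ] F, g a := by
        rw [← trace_eq_sum_automorphisms]
        simp
      rw [h2, Finset.sum_smul]
      exact Finset.sum_congr rfl fun g _ => key g a
    · rintro m m' ⟨r, hr⟩ ⟨r', hr'⟩
      refine ⟨r + r', ?_⟩
      rw [add_smul, ← hr, ← hr', ← Finset.sum_add_distrib]
      refine Finset.sum_congr rfl fun g _ => ?_
      rw [map_add, smul_add]
    · rintro s m ⟨r, hr⟩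
      refine ⟨s * r, ?_⟩
      rw [mul_smul, ← hr, Finset.smul_sum]
      refine Finset.sum_congr rfl fun g _ => ?_
      rw [map_smul (S.φ g), smul_comm _ s]
  obtain ⟨r, hr⟩ := h1
  have h2 : ∑ g : F ≃ₐ[ℚ] F, (α g)⁻¹ • S.φ g y = (Fintype.card (F ≃ₐ[ℚ] F) : L) • y := by
    rw [Finset.sum_congr rfl fun g _ => hy g, Finset.sum_const, Finset.card_univ, Nat.cast_smul_eq_nsmul]
  have h3 : (Fintype.card (F ≃ₐ[ℚ] F) : L) ≠ 0 := by
    exact_mod_cast Fintype.card_ne_zero
  refine ⟨(Fintype.card (F ≃ₐ[ℚ] F) : L)⁻¹ * r, ?_⟩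
  rw [mul_smul, ← hr, h2, smul_smul, inv_mul_cancel₀ h3, one_smul]

omit [NumberField F] in
lemma i_ne_zero {x₀ : X} (hx : ∀ x : X, ∃ a : F, a • x₀ = x) (hb : ∃ x x', bX x x' ≠ 0) :
    R.i x₀ ≠ 0 := by
  intro h
  obtain ⟨x, x', hxx⟩ := hb
  obtain ⟨a, rfl⟩ := hx x
  have h1 := R.B_i (a • x₀) x'
  rw [map_smul, h, smul_zero, map_zero, LinearMap.zero_apply] at h1
  exact hxx (by exact_mod_cast h1.symm)

lemma j_ne_zero {w₀ : W} (hw : ∀ w : W, ∃ a : F, a • w₀ = w) {x₀ : X}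
    (hx : ∀ x : X, ∃ a : F, a • x₀ = x) (hb : ∃ x x', bX x x' ≠ 0) : R.j w₀ ≠ 0 := by
  intro h
  apply i_ne_zero R hx hb
  refine ind R hw (P := fun m => m = 0) ?_ ?_ ?_ _
  · intro a
    rw [h, smul_zero]
  · rintro m m' rfl rfl
    rw [add_zero]
  · rintro r m rfl
    rw [smul_zero]

end main

/-- **The two rational lines agree up to sign.** -/
theorem upToSign (p : ℕ) {F W X : Type} [Field F] [NumberField F] [IsGalois ℚ F] [AddCommGroup W]
    [Module F W] [AddCommGroup X] [Module F X] (hW : Module.finrank F W = 1)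
    (hX : Module.finrank F X = 1) {bW : W → W → ℚ} {bX : X → X → ℚ} (hb : ∃ x x', bX x x' ≠ 0)
    {φW : (F ≃ₐ[ℚ] F) → W → W} {φX : (F ≃ₐ[ℚ] F) → X → X}
    (R : ∀ l : OtherPrime p, Realization F W X bW bX ℚ_[l.1])
    (S : ∀ l : OtherPrime p, Semilinear φW φX (R l)) :
    ∃ T : X ≃ₗ[F] W, (∀ x x', bW (T x) (T x') = bX x x') ∧
      ∀ l : OtherPrime p, (∀ x, (R l).i x = (R l).j (T x)) ∨ (∀ x, (R l).i x = -(R l).j (T x)) := by
  obtain ⟨w₀, hw0, hw⟩ := finrank_eq_one_iff'.1 hW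
  obtain ⟨x₀, hx0, hx⟩ := finrank_eq_one_iff'.1 hX
  -- a prime different from `p`
  obtain ⟨l₀⟩ : Nonempty (OtherPrime p) := by
    by_cases h : p = 2
    · exact ⟨⟨3, Nat.prime_three, by omega⟩⟩
    · exact ⟨⟨2, Nat.prime_two, by omega⟩⟩
  choose α hα using fun g : F ≃ₐ[ℚ] F => hw (φW g w₀)
  choose β hβ using fun g : F ≃ₐ[ℚ] F => hx (φX g x₀)
  have hα0 : ∀ g, α g ≠ 0 := by
    intro g h
    have h1 := (S l₀).φ_j g w₀
    rw [← hα, h, zero_smul, map_zero] at h1
    exact j_ne_zero (R l₀) hw hx hb ((S l₀).inj g (by rw [h1, map_zero]))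
  have hβ0 : ∀ g, β g ≠ 0 := by
    intro g h
    have h1 := (S l₀).φ_i g x₀
    rw [← hβ, h, zero_smul, map_zero] at h1
    exact i_ne_zero (R l₀) hx hb ((S l₀).inj g (by rw [h1, map_zero]))
  have hy : ∀ (l : OtherPrime p) (g : F ≃ₐ[ℚ] F),
      (α g)⁻¹ • (S l).φ g ((R l).i x₀) = ((α g)⁻¹ * β g) • (R l).i x₀ := by
    intro l g
    rw [(S l).φ_i, ← hβ, map_smul, smul_smul]
  -- the cocycle
  let f : (F ≃ₐ[ℚ] F) → Fˣ := fun g => Units.mk0 ((α g)⁻¹ * β g) (mul_ne_zero (inv_ne_zero (hα0 g)) (hβ0 g))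
  have hf : groupCohomology.IsMulCocycle₁ f := by
    intro g h
    apply Units.ext
    rw [Units.val_mul, AlgEquiv.smul_units_def, Units.coe_map]
    simp only [f, Units.val_mk0, MonoidHom.coe_coe]
    apply smul_inj (i_ne_zero (R l₀) hx hb)
    have h1 := psi_mul (R l₀) (S l₀) hw hα hα0 g h ((R l₀).i x₀)
    rw [hy, hy, (S l₀).semi, smul_comm, hy, smul_smul] at h1
    exact h1.symm
  obtain ⟨b, hbc⟩ := groupCohomology.isMulCoboundary₁_of_isMulCocycle₁_of_aut_to_units f hf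
  have hb0 : (b : F) ≠ 0 := b.ne_zero
  have hgb : ∀ g : F ≃ₐ[ℚ] F, g (b : F) = ((α g)⁻¹ * β g) * b := by
    intro g
    have h1 := hbc g
    rw [div_eq_iff_eq_mul] at h1
    have h2 := congrArg (fun u : Fˣ => (u : F)) h1
    rw [Units.val_mul, AlgEquiv.smul_units_def, Units.coe_map] at h2
    exact h2
  -- the ratio
  have hlam : ∀ l : OtherPrime p, ∃ r : ℚ_[l.1], (R l).i x₀ = r • ((b : F) • (R l).j w₀) := by
    intro l
    obtain ⟨r, hr⟩ := fixed (R l) (S l) hw hα hα0 ((b : F)⁻¹ • (R l).i x₀) (by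
      intro g
      rw [(S l).semi, smul_comm, hy, smul_smul, map_inv₀, hgb]
      congr 1
      have := hα0 g
      have := hβ0 g
      field_simp)
    refine ⟨r, ?_⟩
    rw [smul_comm, ← hr, smul_smul, mul_inv_cancel₀ hb0, one_smul]
  choose lam hlam using hlam
  have hgen : ∀ (l : OtherPrime p) (a : F),
      (R l).i (a • x₀) = lam l • (R l).j (a • (b : F) • w₀) := by
    intro l a
    rw [map_smul, hlam, smul_comm, map_smul, map_smul]
  have hsq : ∀ (l : OtherPrime p) (a a' : F), lam l * lam l *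
      (bW (a • (b : F) • w₀) (a' • (b : F) • w₀) : ℚ_[l.1]) = (bX (a • x₀) (a' • x₀) : ℚ_[l.1]) := by
    intro l a a'
    rw [← (R l).B_i, ← (R l).B_j, hgen, hgen]
    simp only [map_smul, LinearMap.smul_apply, smul_eq_mul]
    ring
  obtain ⟨x, x', hxx⟩ := id hb
  obtain ⟨a, rfl⟩ := hx x
  obtain ⟨a', rfl⟩ := hx x'
  have hww : bW (a • (b : F) • w₀) (a' • (b : F) • w₀) ≠ 0 := by
    intro h
    have h1 := hsq l₀ a a'
    rw [h, Rat.cast_zero, mul_zero] at h1
    exact hxx (by exact_mod_cast h1.symm)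
  obtain ⟨s, hs⟩ : IsSquare (bX (a • x₀) (a' • x₀) / bW (a • (b : F) • w₀) (a' • (b : F) • w₀)) := by
    refine Squares.isSquare_of_padic _ (div_ne_zero hxx hww) p ?_
    intro l hl hlp
    refine ⟨lam ⟨l, hl.out, hlp⟩, ?_⟩
    have h1 := hsq ⟨l, hl.out, hlp⟩ a a'
    have h2 : ((bW (a • (b : F) • w₀) (a' • (b : F) • w₀) : ℚ) : ℚ_[l]) ≠ 0 := by
      exact_mod_cast hww
    push_cast
    rw [div_eq_iff h2]
    exact h1.symm
  have hs0 : s ≠ 0 := by
    rintro rfl
    rw [mul_zero] at hs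
    exact div_ne_zero hxx hww hs
  have hpm : ∀ l : OtherPrime p, lam l = (s : ℚ_[l.1]) ∨ lam l = -(s : ℚ_[l.1]) := by
    intro l
    apply mul_self_eq_mul_self_iff.1
    have h1 := hsq l a a'
    have h2 : ((bW (a • (b : F) • w₀) (a' • (b : F) • w₀) : ℚ) : ℚ_[l.1]) ≠ 0 := by
      exact_mod_cast hww
    have h3 : ((bX (a • x₀) (a' • x₀) / bW (a • (b : F) • w₀) (a' • (b : F) • w₀) : ℚ) : ℚ_[l.1]) =
        ((s * s : ℚ) : ℚ_[l.1]) := by rw [hs]
    push_cast at h3
    rw [← h3, eq_div_iff h2]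
    exact h1
  -- the isomorphism
  have hw1 : ((s : F) * b) • w₀ ≠ 0 := smul_ne_zero (mul_ne_zero (by exact_mod_cast hs0) hb0) hw0
  let eX : F ≃ₗ[F] X := LinearEquiv.ofBijective (LinearMap.toSpanSingleton F X x₀)
    ⟨fun u v huv => smul_inj hx0 (by simpa using huv), fun x => by
      obtain ⟨u, hu⟩ := hx x
      exact ⟨u, by simpa using hu⟩⟩
  let eW : F ≃ₗ[F] W := LinearEquiv.ofBijective (LinearMap.toSpanSingleton F W (((s : F) * b) • w₀))
    ⟨fun u v huv => smul_inj hw1 (by simpa using huv), fun w => by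
      obtain ⟨u, hu⟩ := hw w
      refine ⟨u * ((s : F) * b)⁻¹, ?_⟩
      have h1 : ((s : F) * b) ≠ 0 := mul_ne_zero (by exact_mod_cast hs0) hb0
      rw [LinearMap.toSpanSingleton_apply, smul_smul, mul_assoc, inv_mul_cancel₀ h1, mul_one, hu]⟩
  have hT : ∀ u : F, (eX.symm.trans eW) (u • x₀) = u • ((s : F) * b) • w₀ := by
    intro u
    have h1 : eX u = u • x₀ := rfl
    rw [← h1, LinearEquiv.trans_apply, LinearEquiv.symm_apply_apply]
    rfl
  have hj : ∀ (l : OtherPrime p) (u : F), (R l).j ((eX.symm.trans eW) (u • x₀)) =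
      (s : ℚ_[l.1]) • (R l).j (u • (b : F) • w₀) := by
    intro l u
    rw [hT, mul_smul, smul_comm u, map_smul, rat_smul (L := ℚ_[l.1])]
  have hfin : ∀ l : OtherPrime p, (∀ x, (R l).i x = (R l).j ((eX.symm.trans eW) x)) ∨
      (∀ x, (R l).i x = -(R l).j ((eX.symm.trans eW) x)) := by
    intro l
    rcases hpm l with h | h
    · left
      intro x
      obtain ⟨u, rfl⟩ := hx x
      rw [hgen, hj, h]
    · right
      intro x
      obtain ⟨u, rfl⟩ := hx x
      rw [hgen, hj, h, neg_smul]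
  refine ⟨eX.symm.trans eW, ?_, hfin⟩
  intro x x'
  have h1 := (R l₀).B_j ((eX.symm.trans eW) x) ((eX.symm.trans eW) x')
  have h2 := (R l₀).B_i x x'
  rcases hfin l₀ with h | h
  · rw [h, h, h1] at h2
    exact_mod_cast h2
  · rw [h, h] at h2
    simp only [map_neg, LinearMap.neg_apply, neg_neg] at h2
    rw [h1] at h2
    exact_mod_cast h2

/-- **The norm identity**, no semilinear maps: for a quadratic field `F = ℚ(δ)`, `δ² = -D`. -/
theorem normIdentity {F W X : Type} [Field F] [NumberField F] [AddCommGroup W] [Module F W]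
    [AddCommGroup X] [Module F X] (hF : Module.finrank ℚ F = 2) (δ : F) (D : ℚ)
    (hδ : δ * δ = -(D : F)) (hδ' : ∀ q : ℚ, δ ≠ q)
    (hW : Module.finrank F W = 1) {bW : W → W → ℚ} {bX : X → X → ℚ}
    {L : Type} [Field L] [CharZero L] (R : Realization F W X bW bX L)
    (adj : ∀ m m', R.B (δ • m) m' = -R.B m (δ • m')) (x : X) (w : W) :
    (D : L) * R.B (R.i x) (R.j w) ^ 2 + R.B (R.i x) (R.j (δ • w)) ^ 2 =
      ((D * bX x x * bW w w : ℚ) : L) := by
  obtain ⟨w₀, hw0, hw⟩ := finrank_eq_one_iff'.1 hW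
  by_cases hwz : w = 0
  · subst hwz
    have h1 := R.B_j (0 : W) 0
    rw [map_zero, map_zero] at h1
    rw [smul_zero, map_zero, map_zero]
    have h2 : (bW 0 0 : ℚ) = 0 := by exact_mod_cast h1.symm
    rw [h2]
    simp
  -- every element of `F` is `r + s δ`
  have hFδ : ∀ a : F, ∃ r s : ℚ, a = (r : F) + (s : F) * δ := by
    have hli : LinearIndependent ℚ ![(1 : F), δ] := by
      rw [LinearIndependent.pair_iff]
      intro s t hst
      by_cases ht : t = 0
      · subst ht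
        simpa using hst
      · exfalso
        apply hδ' (-s / t)
        have ht' : (t : F) ≠ 0 := by exact_mod_cast ht
        push_cast
        rw [Rat.smul_def, Rat.smul_def, mul_one] at hst
        rw [eq_div_iff ht']
        linear_combination hst
    have hsp := hli.span_eq_top_of_card_eq_finrank' (by simp [hF])
    intro a
    have ha : a ∈ Submodule.span ℚ (Set.range ![(1 : F), δ]) := by rw [hsp]; trivial
    rw [Matrix.range_cons, Matrix.range_cons, Matrix.range_empty, Set.union_empty] at ha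
    rw [Set.singleton_union, Submodule.mem_span_pair] at ha
    obtain ⟨r, s, h⟩ := ha
    refine ⟨r, s, ?_⟩
    rw [← h, Rat.smul_def, Rat.smul_def, mul_one]
  -- `w` generates `W`
  have hww : ∀ w' : W, ∃ a : F, a • w = w' := by
    obtain ⟨c, hc⟩ := hw w
    have hc0 : c ≠ 0 := by
      rintro rfl
      exact hwz (by rw [← hc, zero_smul])
    intro w'
    obtain ⟨a, ha⟩ := hw w'
    refine ⟨a * c⁻¹, ?_⟩
    rw [← hc, smul_smul, mul_assoc, inv_mul_cancel₀ hc0, mul_one, ha]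
  -- `i x` in the basis `j w`, `δ j w`
  obtain ⟨r, s, hrs⟩ : ∃ r s : L, R.i x = r • R.j w + s • (δ • R.j w) := by
    refine ind R hww (P := fun m => ∃ r s : L, m = r • R.j w + s • (δ • R.j w)) ?_ ?_ ?_ _
    · intro a
      obtain ⟨r, s, rfl⟩ := hFδ a
      refine ⟨r, s, ?_⟩
      rw [add_smul, mul_smul, rat_smul (F := F) (L := L) r, rat_smul (F := F) (L := L) s]
    · rintro m m' ⟨r, s, rfl⟩ ⟨r', s', rfl⟩
      refine ⟨r + r', s + s', ?_⟩
      rw [add_smul, add_smul]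
      abel
    · rintro t m ⟨r, s, rfl⟩
      refine ⟨t * r, t * s, ?_⟩
      rw [smul_add, mul_smul, mul_smul]
  have e1 : R.B (R.j w) (δ • R.j w) = 0 := by
    have h1 := adj (R.j w) (R.j w)
    rw [R.symm] at h1
    have h2 : (2 : L) * R.B (R.j w) (δ • R.j w) = 0 := by linear_combination h1
    rcases mul_eq_zero.1 h2 with h3 | h3
    · exact absurd h3 two_ne_zero
    · exact h3
  have e2 : R.B (δ • R.j w) (R.j w) = 0 := by rw [R.symm, e1]
  have e3 : R.B (δ • R.j w) (δ • R.j w) = (D : L) * (bW w w : L) := by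
    rw [adj, smul_smul, hδ, neg_smul, rat_smul (L := L), map_neg, neg_neg, map_smul, R.B_j,
      smul_eq_mul]
  have e4 : R.B (R.i x) (R.j w) = r * (bW w w : L) := by
    rw [hrs]
    simp only [map_add, map_smul, LinearMap.add_apply, LinearMap.smul_apply, smul_eq_mul, e2,
      R.B_j]
    ring
  have e5 : R.B (R.i x) (R.j (δ • w)) = s * ((D : L) * (bW w w : L)) := by
    rw [hrs, map_smul R.j]
    simp only [map_add, map_smul, LinearMap.add_apply, LinearMap.smul_apply, smul_eq_mul, e1, e3]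
    ring
  have e6 : (bX x x : L) = r * r * (bW w w : L) + s * s * ((D : L) * (bW w w : L)) := by
    rw [← R.B_i, hrs]
    simp only [map_add, map_smul, LinearMap.add_apply, LinearMap.smul_apply, smul_eq_mul, e1, e2,
      e3, R.B_j]
    ring
  push_cast
  rw [e4, e5, e6]
  ring

end Pool.Agent.Lib.MP_0abd54_ag
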